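import Mathlib
import Pool.Agent.Y372.UF.Stm

/-! # Project UF: the sign of the third derivative at the third node -/

set_option autoImplicit false

open Polynomial

namespace Pool.Agent.Y83.UF


/-- derivative of the relation `U_n (cos t) sin t = sin ((n+1) t)` -/
theorem U_deriv (n : ℤ) (t : ℝ) :
    -((derivative (Chebyshev.U ℝ n)).eval (Real.cos t) * Real.sin t ^ 2) +
      (Chebyshev.U ℝ n).eval (Real.cos t) * Real.cos t =
      ((n : ℝ) + 1) * Real.cos (((n : ℝ) + 1) * t) := by
  have h1 : HasDerivAt (fun t : ℝ => (Chebyshev.U ℝ n).eval (Real.cos t) * Real.sin t)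
      ((derivative (Chebyshev.U ℝ n)).eval (Real.cos t) * (-Real.sin t) * Real.sin t +
        (Chebyshev.U ℝ n).eval (Real.cos t) * Real.cos t) t := by
    have h2 : HasDerivAt (fun t : ℝ => (Chebyshev.U ℝ n).eval (Real.cos t))
        ((derivative (Chebyshev.U ℝ n)).eval (Real.cos t) * (-Real.sin t)) t :=
      ((Chebyshev.U ℝ n).hasDerivAt (Real.cos t)).comp t (Real.hasDerivAt_cos t)
    exact h2.mul (Real.hasDerivAt_sin t)
  have h3 : (fun t : ℝ => (Chebyshev.U ℝ n).eval (Real.cos t) * Real.sin t) =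
      fun t : ℝ => Real.sin (((n : ℝ) + 1) * t) := by
    funext s
    exact Chebyshev.U_real_cos s n
  rw [h3] at h1
  have h4 : HasDerivAt (fun t : ℝ => Real.sin (((n : ℝ) + 1) * t))
      (Real.cos (((n : ℝ) + 1) * t) * ((n : ℝ) + 1)) t := by
    have h5 : HasDerivAt (fun t : ℝ => ((n : ℝ) + 1) * t) ((n : ℝ) + 1) t := by
      simpa using (hasDerivAt_id t).const_mul ((n : ℝ) + 1)
    exact (Real.hasDerivAt_sin _).comp t h5
  have h6 := h1.unique h4
  linear_combination h6

theorem sg_aux (M : ℕ) (hM : 4 ≤ M) :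
    (derivative^[3] ((1 + X) * Chebyshev.U ℝ ((M : ℤ) - 1))).eval
      (Real.cos (3 * (Real.pi / (M : ℝ)))) < 0 := by
  have hM' : (4 : ℝ) ≤ M := by exact_mod_cast hM
  have hM0 : (0 : ℝ) < M := by linarith
  have hpi := Real.pi_pos
  set th : ℝ := 3 * (Real.pi / (M : ℝ)) with hth
  have hth0 : 0 < th := by positivity
  have hthM : th * M = 3 * Real.pi := by rw [hth]; field_simp
  have hthpi : th < Real.pi := by nlinarith
  set U := Chebyshev.U ℝ ((M : ℤ) - 1) with hU
  set x := Real.cos th with hx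
  set s := Real.sin th with hs
  have hs0 : 0 < s := Real.sin_pos_of_pos_of_lt_pi hth0 hthpi
  have hsx : s ^ 2 = 1 - x ^ 2 := by rw [hs, hx, Real.sin_sq]
  have hU0 : U.eval x = 0 := by
    have h1 := Chebyshev.U_real_cos th ((M : ℤ) - 1)
    have h2 : (((M : ℤ) - 1 : ℤ) : ℝ) + 1 = M := by push_cast; ring
    rw [h2, show (M : ℝ) * th = 3 * Real.pi by rw [mul_comm, hthM]] at h1
    have h3 : Real.sin (3 * Real.pi) = 0 := by
      have := Real.sin_nat_mul_pi 3
      exact_mod_cast this
    rw [h3] at h1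
    exact (mul_eq_zero.mp h1).resolve_right hs0.ne'
  have hU1 : (derivative U).eval x * s ^ 2 = M := by
    have h1 := U_deriv ((M : ℤ) - 1) th
    have h2 : (((M : ℤ) - 1 : ℤ) : ℝ) + 1 = M := by push_cast; ring
    rw [h2, show (M : ℝ) * th = 3 * Real.pi by rw [mul_comm, hthM]] at h1
    have h3 : Real.cos (3 * Real.pi) = -1 := by
      have : Real.cos (3 * Real.pi) = Real.cos (Real.pi + 2 * Real.pi) := by ring_nf
      rw [this, Real.cos_add_two_pi, Real.cos_pi]
    rw [h3] at h1
    change -((derivative U).eval x * s ^ 2) + U.eval x * x = M * -1 at h1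
    rw [hU0] at h1
    linarith

  have hx1 : 0 < 1 + x := by
    have h1 : 0 < (1 - x) * (1 + x) := by nlinarith [pow_pos hs0 2]
    have h2 : x ≤ 1 := Real.cos_le_one th
    by_contra h3
    push Not at h3
    nlinarith
  set u1 := (derivative U).eval x with hu1
  have hs2 : 0 < s ^ 2 := pow_pos hs0 2
  have hu1pos : 0 < u1 := by
    by_contra h
    push Not at h
    nlinarith
  have hcast : (((M : ℤ) - 1 : ℤ) : ℝ) = (M : ℝ) - 1 := by push_cast; ring
  have hU2 := Chebyshev.one_sub_X_sq_mul_iterate_derivative_U_eval (R := ℝ) ((M : ℤ) - 1) 0 x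
  have hU3 := Chebyshev.one_sub_X_sq_mul_iterate_derivative_U_eval (R := ℝ) ((M : ℤ) - 1) 1 x
  rw [← hU, hcast] at hU2 hU3
  simp only [zero_add, Nat.reduceAdd, Nat.cast_zero, Nat.cast_one, Function.iterate_zero, id_eq,
    Function.iterate_one] at hU2 hU3
  rw [hU0] at hU2
  rw [← hu1] at hU2 hU3
  set u2 := (derivative^[2] U).eval x with hu2
  set u3 := (derivative^[3] U).eval x with hu3
  have hf : (derivative^[3] ((1 + X) * U)).eval x = (1 + x) * u3 + 3 * u2 := by
    rw [hu3, hu2]
    simp only [Function.iterate_succ, Function.iterate_zero, Function.comp_apply, id_eq,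
      derivative_mul, derivative_add, derivative_one, derivative_X, zero_add, one_mul,
      eval_add, eval_mul, eval_one, eval_X, derivative_zero, zero_mul]
    ring
  rw [hf]
  have hkey : s ^ 4 * ((1 + x) * u3 + 3 * u2) =
      u1 * (1 + x) * (2 * x ^ 2 + 9 * x + 4 - (M : ℝ) ^ 2 * s ^ 2) := by
    have e1 : s ^ 2 * u2 = 3 * x * u1 := by
      rw [hsx]; linear_combination hU2
    have e2 : s ^ 2 * u3 = 5 * x * u2 - ((M : ℝ) ^ 2 - 4) * u1 := by
      rw [hsx]; linear_combination hU3
    linear_combination ((1 + x) * s ^ 2) * e2 + (5 * x * (1 + x) + 3 * s ^ 2) * e1 +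
      (9 * x * u1 + 4 * u1 * (1 + x)) * hsx
  have hineq : 2 * x ^ 2 + 9 * x + 4 - (M : ℝ) ^ 2 * s ^ 2 < 0 := by
    rcases le_or_gt th (Real.pi / 2) with h | h
    · have h1 : 2 / Real.pi * th ≤ s := Real.mul_le_sin hth0.le h
      have h2 : 6 ≤ M * s := by
        have h3 : (M : ℝ) * (2 / Real.pi * th) = 6 := by
          rw [hth]; field_simp; norm_num
        have h6 := mul_le_mul_of_nonneg_left h1 hM0.le
        linarith
      have h4 : x ≤ 1 := Real.cos_le_one th
      have h5 : (36 : ℝ) ≤ (M : ℝ) ^ 2 * s ^ 2 := by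
        have : (6 : ℝ) ^ 2 ≤ (M * s) ^ 2 := pow_le_pow_left₀ (by norm_num) h2 2
        rw [mul_pow] at this
        linarith
      have h6 : x ^ 2 ≤ 1 := by linarith
      linarith
    · have hxneg : x < 0 := Real.cos_neg_of_pi_div_two_lt_of_lt h (by linarith)
      have h1 : 2 / Real.pi * (Real.pi - th) ≤ s := by
        have := Real.mul_le_sin (x := Real.pi - th) (by linarith) (by linarith)
        rwa [Real.sin_pi_sub] at this
      have h2 : 2 ≤ M * s := by
        have h3 : (M : ℝ) * (2 / Real.pi * (Real.pi - th)) = 2 * (M - 3) := by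
          rw [hth]; field_simp
        have h6 := mul_le_mul_of_nonneg_left h1 hM0.le
        linarith
      have h5 : (4 : ℝ) ≤ (M : ℝ) ^ 2 * s ^ 2 := by
        have : (2 : ℝ) ^ 2 ≤ (M * s) ^ 2 := pow_le_pow_left₀ (by norm_num) h2 2
        rw [mul_pow] at this
        linarith
      have h6 : x * (2 * x + 9) < 0 := by
        refine mul_neg_of_neg_of_pos hxneg ?_
        linarith
      have h7 : 2 * x ^ 2 + 9 * x = x * (2 * x + 9) := by ring
      linarith
  have hs4 : 0 < s ^ 4 := pow_pos hs0 4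
  have hneg : s ^ 4 * ((1 + x) * u3 + 3 * u2) < 0 := by
    rw [hkey]
    exact mul_neg_of_pos_of_neg (mul_pos hu1pos hx1) hineq
  by_contra hcon
  push Not at hcon
  exact absurd hneg (not_lt.mpr (mul_nonneg hs4.le hcon))

theorem t_SG : Pool.Agent.Y372.UF.S_SG := fun M hM => sg_aux M hM

end Pool.Agent.Y83.UF
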