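import Mathlib
import Pool.Agent.Y372.UF.StmB

/-!
Project UF (helper372, MP_54ecb1_an): the upper half of the image is convex in the vertical
direction.
-/

set_option autoImplicit false

open Polynomial

namespace Pool.Agent.Y83.UF

open Pool.Agent.Y372.UF

/-- no crossing upwards -/
theorem up {β : ℝ → ℝ} (hβ : Continuous β) {r t c d : ℝ} (hrt : r ≤ t) (hcd : c < d)
    (h : ∀ s ∈ Set.Icc r t, c < β s → β s < d → False) (h0 : β r ≤ c) : β t ≤ c := by
  by_contra hc
  push Not at hc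
  have hv : min (β t) ((c + d) / 2) ∈ Set.Icc (β r) (β t) :=
    ⟨le_min (by linarith) (by linarith), min_le_left _ _⟩
  obtain ⟨s, hs, hs2⟩ := intermediate_value_Icc hrt hβ.continuousOn hv
  refine h s hs ?_ ?_
  · rw [hs2]; exact lt_min hc (by linarith)
  · rw [hs2]; exact lt_of_le_of_lt (min_le_right _ _) (by linarith)

/-- no crossing downwards -/
theorem down {β : ℝ → ℝ} (hβ : Continuous β) {r t c d : ℝ} (hrt : r ≤ t) (hcd : c < d)
    (h : ∀ s ∈ Set.Icc r t, c < β s → β s < d → False) (h0 : d ≤ β r) : d ≤ β t := by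
  have := up (β := fun s => -β s) hβ.neg hrt (neg_lt_neg hcd)
    (fun s hs h1 h2 => h s hs (by linarith) (by linarith)) (by linarith)
  linarith

theorem cos_neg1 {x : ℝ} (h1 : Real.pi / 2 < x) (h2 : x < 3 * Real.pi / 2) : Real.cos x < 0 :=
  Real.cos_neg_of_pi_div_two_lt_of_lt h1 (by linarith)

theorem cos_neg2 {x : ℝ} (h1 : -(3 * Real.pi / 2) < x) (h2 : x < -(Real.pi / 2)) :
    Real.cos x < 0 := by
  rw [← Real.cos_neg]
  exact cos_neg1 (by linarith) (by linarith)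

theorem cos_pos1 {x : ℝ} (h1 : -(Real.pi / 2) < x) (h2 : x < Real.pi / 2) : 0 < Real.cos x :=
  Real.cos_pos_of_mem_Ioo ⟨h1, h2⟩

/-- forward: positive total change forces the position of the crossings -/
theorem fwd {β : ℝ → ℝ} (hβ : Continuous β) {t1 t2 : ℝ} (h01 : 0 ≤ t1) (h12 : t1 ≤ t2)
    (h2 : t2 ≤ Real.pi)
    (c1 : 0 < t1 → ∀ t ∈ Set.Icc 0 t1, 0 ≤ Real.cos (β t))
    (c2 : ∀ t ∈ Set.Icc t1 t2, Real.cos (β t) ≤ 0)
    (c3 : t2 < Real.pi → ∀ t ∈ Set.Icc t2 Real.pi, 0 ≤ Real.cos (β t))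
    (b1 : -Real.pi < β 0) (b2 : β 0 < 0) (b3 : Real.pi < β Real.pi) :
    0 < t1 ∧ 0 < Real.sin (β t1) ∧ (t2 < Real.pi → ¬ 0 < Real.sin (β t2)) := by
  have hpi := Real.pi_pos
  -- the last arc
  have last : β t2 ≤ Real.pi / 2 → False := by
    intro h
    rcases h2.eq_or_lt with e | e
    · rw [e] at h; linarith
    · have := up hβ h2 (show Real.pi / 2 < 3 * Real.pi / 2 by linarith)
        (fun s hs h3 h4 => absurd (cos_neg1 h3 h4) (not_lt.2 (c3 e s hs))) h
      linarith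
  -- the middle arc
  have mid : β t1 ≤ -(Real.pi / 2) → False := by
    intro h
    have := up hβ h12 (show -(Real.pi / 2) < Real.pi / 2 by linarith)
      (fun s hs h3 h4 => absurd (cos_pos1 h3 h4) (not_lt.2 (c2 s hs))) h
    exact last (by linarith)
  have m2 : β t1 ≤ Real.pi / 2 := by
    rcases h01.eq_or_lt with e | e
    · rw [← e]; linarith
    · exact up hβ h01 (show Real.pi / 2 < 3 * Real.pi / 2 by linarith)
        (fun s hs h3 h4 => absurd (cos_neg1 h3 h4) (not_lt.2 (c1 e s hs))) (by linarith)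
  have hp : 0 < t1 := by
    rcases h01.eq_or_lt with e | e
    · exfalso
      apply mid
      by_contra hc
      push Not at hc
      have h3 := cos_pos1 hc (by rw [← e]; linarith)
      exact absurd (c2 t1 ⟨le_rfl, h12⟩) (not_le.2 h3)
    · exact e
  have m3 : β t1 = Real.pi / 2 := by
    by_contra hc
    have hlt : β t1 < Real.pi / 2 := lt_of_le_of_ne m2 hc
    apply mid
    by_contra hc2
    push Not at hc2
    exact absurd (c2 t1 ⟨le_rfl, h12⟩) (not_le.2 (cos_pos1 hc2 hlt))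
  refine ⟨hp, by rw [m3]; simp, fun h3 h4 => ?_⟩
  -- t2 < pi and sin > 0
  have m4 : β t2 ≤ 3 * Real.pi / 2 := by
    refine up hβ h12 (show 3 * Real.pi / 2 < 5 * Real.pi / 2 by linarith)
      (fun s hs h3 h4 => ?_) (by linarith)
    have := cos_pos1 (x := β s - 2 * Real.pi) (by linarith) (by linarith)
    rw [Real.cos_sub_two_pi] at this
    exact absurd (c2 s hs) (not_le.2 this)
  have m5 : β t2 ≠ 3 * Real.pi / 2 := by
    intro e
    rw [e, show 3 * Real.pi / 2 = Real.pi / 2 + Real.pi by ring, Real.sin_add_pi] at h4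
    norm_num at h4
  apply last
  by_contra hc
  push Not at hc
  have := cos_neg1 hc (lt_of_le_of_ne m4 m5)
  exact absurd (c3 h3 t2 ⟨le_rfl, h2⟩) (not_le.2 this)

/-- no crossing at all: no change -/
theorem fwd0 {β : ℝ → ℝ} (hβ : Continuous β)
    (c1 : ∀ t ∈ Set.Icc 0 Real.pi, 0 ≤ Real.cos (β t))
    (b2 : β 0 < 0) (b3 : Real.pi < β Real.pi) : False := by
  have hpi := Real.pi_pos
  have := up hβ hpi.le (show Real.pi / 2 < 3 * Real.pi / 2 by linarith)
    (fun s hs h3 h4 => absurd (cos_neg1 h3 h4) (not_lt.2 (c1 s hs))) (by linarith)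
  linarith

/-- backward -/
theorem bwd {β : ℝ → ℝ} (hβ : Continuous β) {t1 t2 : ℝ} (h01 : 0 < t1) (h12 : t1 ≤ t2)
    (h2 : t2 ≤ Real.pi)
    (c1 : ∀ t ∈ Set.Icc 0 t1, 0 ≤ Real.cos (β t))
    (c2 : ∀ t ∈ Set.Icc t1 t2, Real.cos (β t) ≤ 0)
    (c3 : t2 < Real.pi → ∀ t ∈ Set.Icc t2 Real.pi, 0 ≤ Real.cos (β t))
    (b1 : -Real.pi < β 0) (b2 : β 0 < 0) (s1 : 0 < Real.sin (β t1))
    (s2 : t2 < Real.pi → Real.sin (β t2) < 0) : 0 < β Real.pi := by
  have hpi := Real.pi_pos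
  have m0 : -(Real.pi / 2) ≤ β 0 := by
    by_contra hc
    push Not at hc
    exact absurd (c1 0 ⟨le_rfl, h01.le⟩) (not_le.2 (cos_neg2 (by linarith) hc))
  have m1 : -(Real.pi / 2) ≤ β t1 :=
    down hβ h01.le (show -(3 * Real.pi / 2) < -(Real.pi / 2) by linarith)
      (fun s hs h3 h4 => absurd (cos_neg2 h3 h4) (not_lt.2 (c1 s hs))) m0
  have m2 : Real.pi / 2 ≤ β t1 := by
    by_contra hc
    push Not at hc
    rcases m1.eq_or_lt with e | e
    · rw [← e] at s1
      norm_num at s1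
    · exact absurd (c2 t1 ⟨le_rfl, h12⟩) (not_le.2 (cos_pos1 e hc))
  have m3 : Real.pi / 2 ≤ β t2 :=
    down hβ h12 (show -(Real.pi / 2) < Real.pi / 2 by linarith)
      (fun s hs h3 h4 => absurd (cos_pos1 h3 h4) (not_lt.2 (c2 s hs))) m2
  rcases h2.eq_or_lt with e | e
  · rw [← e]; linarith
  have m4 : 3 * Real.pi / 2 ≤ β t2 := by
    by_contra hc
    push Not at hc
    rcases m3.eq_or_lt with e' | e'
    · have := s2 e
      rw [← e'] at this
      norm_num at this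
    · exact absurd (c3 e t2 ⟨le_rfl, h2⟩) (not_le.2 (cos_neg1 e' hc))
  have := down hβ h2 (show Real.pi / 2 < 3 * Real.pi / 2 by linarith)
    (fun s hs h3 h4 => absurd (cos_neg1 h3 h4) (not_lt.2 (c3 e s hs))) m4
  linarith

end Pool.Agent.Y83.UF
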