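import Mathlib
import Pool.Agent.Y83.UF.Vc

/-!
Project UF (helper372, MP_54ecb1_an): the curve does not meet the image of the disc; arguments.
-/

set_option autoImplicit false

open Polynomial

namespace Pool.Agent.Y83.UF

open Pool.Agent.Y372.UF

theorem aeval_cont (p : ℝ[X]) : Continuous (fun z : ℂ => (aeval z p : ℂ)) := by
  have : (fun z : ℂ => (aeval z p : ℂ)) = fun z => (p.map (algebraMap ℝ ℂ)).eval z := by
    funext z
    rw [eval_map_algebraMap]
  rw [this]
  exact Polynomial.continuous _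

theorem exp_cont : Continuous (fun t : ℝ => Complex.exp ((t : ℂ) * Complex.I)) := by
  fun_prop

theorem g_cont (p : ℝ[X]) :
    Continuous (fun t : ℝ => (aeval (Complex.exp ((t : ℂ) * Complex.I)) p : ℂ)) :=
  (aeval_cont p).comp exp_cont

/-- symmetry -/
theorem g_im_neg (p : ℝ[X]) (t : ℝ) :
    (aeval (Complex.exp (((-t : ℝ) : ℂ) * Complex.I)) p : ℂ).im
      = - (aeval (Complex.exp ((t : ℂ) * Complex.I)) p : ℂ).im := by
  have h1 : Complex.exp (((-t : ℝ) : ℂ) * Complex.I)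
      = (starRingEnd ℂ) (Complex.exp ((t : ℂ) * Complex.I)) := by
    rw [← Complex.exp_conj]
    congr 1
    simp
  rw [h1, Polynomial.aeval_conj, Complex.conj_im]

/-- a point of the curve is not a value in the disc -/
theorem off (p : ℝ[X]) (hinj : Set.InjOn (fun z : ℂ => (aeval z p : ℂ)) (Metric.ball (0 : ℂ) 1))
    (z0 : ℂ) (hz0 : z0 ∈ Metric.ball (0 : ℂ) 1) (t : ℝ)
    (h : (aeval z0 p : ℂ) = (aeval (Complex.exp ((t : ℂ) * Complex.I)) p : ℂ)) : False := by
  set e := Complex.exp ((t : ℂ) * Complex.I) with he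
  have hen : ‖e‖ = 1 := Complex.norm_exp_ofReal_mul_I t
  rw [mem_ball_zero_iff] at hz0
  set ρ := (1 - ‖z0‖) / 2 with hρ
  have hρ0 : 0 < ρ := by rw [hρ]; linarith
  have hU : Metric.ball z0 ρ ⊆ Metric.ball (0 : ℂ) 1 := by
    intro z hz
    rw [mem_ball_iff_norm] at hz
    rw [mem_ball_zero_iff]
    calc ‖z‖ = ‖(z - z0) + z0‖ := by rw [sub_add_cancel]
      _ ≤ ‖z - z0‖ + ‖z0‖ := norm_add_le _ _
      _ < 1 := by rw [hρ] at hz; linarith
  have han : AnalyticOnNhd ℂ (fun z : ℂ => (aeval z p : ℂ)) (Metric.ball z0 ρ) := by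
    have hfe : (fun z : ℂ => (aeval z p : ℂ)) = fun z => (p.map (algebraMap ℝ ℂ)).eval z := by
      funext z
      rw [eval_map_algebraMap]
    rw [hfe]
    intro z _
    have := (AnalyticOnNhd.eval_polynomial (𝕜 := ℂ) (A := ℂ) (p.map (algebraMap ℝ ℂ)))
    exact this z trivial
  rcases han.is_constant_or_isOpen (convex_ball z0 ρ).isPreconnected with ⟨w, hw⟩ | ho
  · -- not constant
    have h1 : z0 + (ρ / 2 : ℝ) ∈ Metric.ball z0 ρ := by
      rw [mem_ball_iff_norm, add_sub_cancel_left, Complex.norm_real, Real.norm_eq_abs,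
        abs_of_pos (by linarith)]
      linarith
    have h2 : z0 ∈ Metric.ball z0 ρ := Metric.mem_ball_self hρ0
    have h3 := hinj (hU h1) (hU h2) (by simpa using (hw _ h1).trans (hw _ h2).symm)
    have h4 : ((ρ / 2 : ℝ) : ℂ) = 0 := by simpa using h3
    rw [Complex.ofReal_eq_zero] at h4
    linarith
  · have hop := ho _ subset_rfl Metric.isOpen_ball
    have hmem : (aeval e p : ℂ) ∈ (fun z : ℂ => (aeval z p : ℂ)) '' Metric.ball z0 ρ :=
      ⟨z0, Metric.mem_ball_self hρ0, h⟩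
    have hc : Filter.Tendsto (fun r : ℝ => (aeval ((r : ℂ) * e) p : ℂ)) (nhdsWithin 1 (Set.Iio 1))
        (nhds (aeval e p : ℂ)) := by
      have h1 : Continuous (fun r : ℝ => (aeval ((r : ℂ) * e) p : ℂ)) :=
        (aeval_cont p).comp (Complex.continuous_ofReal.mul continuous_const)
      have h2 := h1.tendsto 1
      simp only [Complex.ofReal_one, one_mul] at h2
      exact h2.mono_left nhdsWithin_le_nhds
    have h1 := hc.eventually (hop.mem_nhds hmem)
    have h2 : ∀ᶠ r : ℝ in nhdsWithin 1 (Set.Iio 1), r ∈ Set.Ioo (1 - ρ) 1 :=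
      Ioo_mem_nhdsLT (by linarith)
    obtain ⟨r, ⟨z, hz, hzr⟩, hr⟩ := (h1.and h2).exists
    have hr0 : 0 < r := by
      have : ρ ≤ 1 / 2 := by rw [hρ]; linarith [norm_nonneg z0]
      linarith [hr.1]
    have hrn : ‖(r : ℂ) * e‖ = r := by
      rw [norm_mul, hen, mul_one, Complex.norm_real, Real.norm_eq_abs, abs_of_pos hr0]
    have h3 : (r : ℂ) * e ∈ Metric.ball (0 : ℂ) 1 := by
      rw [mem_ball_zero_iff, hrn]; exact hr.2
    have h4 : z = (r : ℂ) * e := hinj (hU hz) h3 hzr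
    rw [h4, mem_ball_iff_norm] at hz
    have h5 : ‖(r : ℂ) * e‖ ≤ ‖(r : ℂ) * e - z0‖ + ‖z0‖ := by
      simpa using norm_add_le ((r : ℂ) * e - z0) z0
    rw [hrn] at h5
    have h6 : ‖z0‖ = 1 - 2 * ρ := by rw [hρ]; ring
    linarith [hr.1]

/-- normalised argument -/
theorem data (hC : S_CNT) (p : ℝ[X])
    (hIm : ∀ t ∈ Set.Icc 0 Real.pi, 0 ≤ (aeval (Complex.exp ((t : ℂ) * Complex.I)) p : ℂ).im)
    (w : ℂ) (hw : 0 < w.im)
    (hoff : ∀ t : ℝ, (aeval (Complex.exp ((t : ℂ) * Complex.I)) p : ℂ) ≠ w) :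
    ∃ β : ℝ → ℝ, Continuous β ∧
      (∀ t : ℝ, (aeval (Complex.exp ((t : ℂ) * Complex.I)) p : ℂ).re ≤ w.re →
        Real.cos (β t) ≤ 0) ∧
      (∀ t : ℝ, w.re ≤ (aeval (Complex.exp ((t : ℂ) * Complex.I)) p : ℂ).re →
        0 ≤ Real.cos (β t)) ∧
      (∀ t : ℝ, (aeval (Complex.exp ((t : ℂ) * Complex.I)) p : ℂ).im < w.im →
        Real.sin (β t) < 0) ∧
      (∀ t : ℝ, w.im < (aeval (Complex.exp ((t : ℂ) * Complex.I)) p : ℂ).im →
        0 < Real.sin (β t)) ∧
      -Real.pi < β 0 ∧ β 0 < 0 ∧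
      (w ∈ (fun z : ℂ => (aeval z p : ℂ)) '' Metric.ball (0 : ℂ) 1 → Real.pi < β Real.pi) ∧
      (0 < β Real.pi → w ∈ (fun z : ℂ => (aeval z p : ℂ)) '' Metric.ball (0 : ℂ) 1) := by
  have hpi := Real.pi_pos
  have hev : ∀ z : ℂ, (p.map (algebraMap ℝ ℂ) - C w).eval z = (aeval z p : ℂ) - w := by
    intro z
    rw [eval_sub, eval_C, eval_map_algebraMap]
  obtain ⟨k, α, hα, h1, h2, h3⟩ := hC (p.map (algebraMap ℝ ℂ) - C w) (fun t => by
    rw [hev]; exact sub_ne_zero.2 (hoff t))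
  set g : ℝ → ℂ := fun t => (aeval (Complex.exp ((t : ℂ) * Complex.I)) p : ℂ) with hg
  have hn : ∀ t, 0 < ‖g t - w‖ := fun t => norm_pos_iff.2 (sub_ne_zero.2 (hoff t))
  have h1' : ∀ t, g t - w = (‖g t - w‖ : ℂ) * Complex.exp ((α t : ℂ) * Complex.I) := by
    intro t
    have := h1 t
    rw [hev] at this
    exact this
  have hre : ∀ t, (g t).re - w.re = ‖g t - w‖ * Real.cos (α t) := by
    intro t
    have := congrArg Complex.re (h1' t)
    rw [Complex.re_ofReal_mul, Complex.exp_ofReal_mul_I_re, Complex.sub_re] at this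
    exact this
  have him : ∀ t, (g t).im - w.im = ‖g t - w‖ * Real.sin (α t) := by
    intro t
    have := congrArg Complex.im (h1' t)
    rw [Complex.im_ofReal_mul, Complex.exp_ofReal_mul_I_im, Complex.sub_im] at this
    exact this
  -- normalisation
  set m : ℤ := ⌊(α 0 + Real.pi) / (2 * Real.pi)⌋ with hm
  have hm1 : (m : ℝ) * (2 * Real.pi) ≤ α 0 + Real.pi := by
    rw [← le_div_iff₀ (by positivity)]
    exact Int.floor_le _
  have hm2 : α 0 + Real.pi < ((m : ℝ) + 1) * (2 * Real.pi) := by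
    rw [← div_lt_iff₀ (by positivity)]
    exact Int.lt_floor_add_one _
  set β : ℝ → ℝ := fun t => α t - (m : ℝ) * (2 * Real.pi) with hβ
  have hβc : Continuous β := hα.sub continuous_const
  have hcos : ∀ t, Real.cos (β t) = Real.cos (α t) := fun t =>
    Real.cos_sub_int_mul_two_pi _ _
  have hsin : ∀ t, Real.sin (β t) = Real.sin (α t) := fun t =>
    Real.sin_sub_int_mul_two_pi _ _
  have q3 : ∀ t : ℝ, (g t).im < w.im → Real.sin (β t) < 0 := by
    intro t ht
    rw [hsin]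
    by_contra hc
    push Not at hc
    have := him t
    nlinarith [mul_nonneg (hn t).le hc]
  have hlow : ∀ t ∈ Set.Icc (-Real.pi) 0, Real.sin (β t) < 0 := by
    intro t ht
    apply q3
    have := g_im_neg p (-t)
    rw [neg_neg] at this
    have h4 := hIm (-t) ⟨by linarith [ht.2], by linarith [ht.1]⟩
    have h5 : (g t).im = -(aeval (Complex.exp (((-t : ℝ) : ℂ) * Complex.I)) p : ℂ).im := this
    rw [h5]
    linarith
  have hb0 : -Real.pi < β 0 := by
    have h4 : -Real.pi ≤ β 0 := by rw [hβ]; simp only; linarith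
    refine lt_of_le_of_ne h4 fun e => ?_
    have := hlow 0 ⟨by linarith, le_rfl⟩
    rw [← e] at this
    simp at this
  have hb1 : β 0 < 0 := by
    have h4 : β 0 < Real.pi := by rw [hβ]; simp only; linarith
    by_contra hc
    push Not at hc
    have := hlow 0 ⟨by linarith, le_rfl⟩
    exact absurd (Real.sin_nonneg_of_nonneg_of_le_pi hc h4.le) (not_le.2 this)
  have hc0 : -Real.pi < β (-Real.pi) := by
    by_contra hc
    push Not at hc
    obtain ⟨s, hs, hs2⟩ := intermediate_value_Icc (show -Real.pi ≤ 0 by linarith)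
      hβc.continuousOn (show -Real.pi ∈ Set.Icc (β (-Real.pi)) (β 0) from ⟨hc, hb0.le⟩)
    have := hlow s hs
    rw [hs2] at this
    simp at this
  have hc1 : β (-Real.pi) < 0 := by
    by_contra hc
    push Not at hc
    obtain ⟨s, hs, hs2⟩ := intermediate_value_Icc' (show -Real.pi ≤ 0 by linarith)
      hβc.continuousOn (show (0 : ℝ) ∈ Set.Icc (β 0) (β (-Real.pi)) from ⟨hb1.le, hc⟩)
    have := hlow s hs
    rw [hs2] at this
    simp at this
  have htot : β Real.pi - β (-Real.pi) = 2 * Real.pi * (k : ℝ) := by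
    rw [← h2, hβ]; ring
  refine ⟨β, hβc, ?_, ?_, q3, ?_, hb0, hb1, ?_, ?_⟩
  · intro t ht
    rw [hcos]
    by_contra hc
    push Not at hc
    have := hre t
    have h4 : (g t).re ≤ w.re := ht
    nlinarith [mul_pos (hn t) hc]
  · intro t ht
    rw [hcos]
    by_contra hc
    push Not at hc
    have := hre t
    have h4 : w.re ≤ (g t).re := ht
    nlinarith [mul_neg_of_pos_of_neg (hn t) hc]
  · intro t ht
    rw [hsin]
    by_contra hc
    push Not at hc
    have := him t
    have h4 : w.im < (g t).im := ht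
    nlinarith [mul_nonneg_of_nonpos_of_nonpos (neg_nonpos.2 (hn t).le) hc]
  · rintro ⟨z, hz, hzw⟩
    have hk : k ≠ 0 := by
      intro hk
      apply h3.1 hk z hz
      rw [hev]
      exact sub_eq_zero.2 hzw
    have hk1 : (1 : ℝ) ≤ k := by exact_mod_cast Nat.one_le_iff_ne_zero.2 hk
    have : 2 * Real.pi * 1 ≤ 2 * Real.pi * (k : ℝ) := by gcongr
    linarith
  · intro hpos
    have hk : k ≠ 0 := by
      rintro rfl
      simp at htot
      linarith
    have := mt h3.2 hk
    push Not at this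
    obtain ⟨z, hz, hz2⟩ := this
    rw [hev] at hz2
    exact ⟨z, hz, sub_eq_zero.1 hz2⟩

end Pool.Agent.Y83.UF
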