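import Mathlib
import Pool.Agent.Y83.UF.Vc2

/-!
Project UF (helper372, MP_54ecb1_an): vertical convexity of the upper half of the image.
-/

set_option autoImplicit false

open Polynomial

namespace Pool.Agent.Y83.UF

open Pool.Agent.Y372.UF

theorem x_analytic (p : ℝ[X]) : AnalyticOnNhd ℝ
    (fun t : ℝ => (aeval (Complex.exp ((t : ℂ) * Complex.I)) p : ℂ).re) Set.univ := by
  intro t _
  have h1 : AnalyticAt ℝ (fun t : ℝ => ((t : ℂ) * Complex.I)) t :=
    ((Complex.ofRealCLM.analyticAt t)).mul analyticAt_const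
  have h2 : AnalyticAt ℝ (fun t : ℝ => Complex.exp ((t : ℂ) * Complex.I)) t :=
    AnalyticAt.fun_comp (g := Complex.exp) (f := fun t : ℝ => (t : ℂ) * Complex.I)
      (analyticAt_cexp (z := (t : ℂ) * Complex.I)).restrictScalars h1
  have hfe : (fun z : ℂ => (aeval z p : ℂ)) = fun z => (p.map (algebraMap ℝ ℂ)).eval z := by
    funext z
    rw [eval_map_algebraMap]
  have h3 : AnalyticAt ℂ (fun z : ℂ => (aeval z p : ℂ)) (Complex.exp ((t : ℂ) * Complex.I)) := by
    rw [hfe]
    exact (AnalyticOnNhd.eval_polynomial (𝕜 := ℂ) (A := ℂ) (p.map (algebraMap ℝ ℂ))) _ trivial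
  have h4 : AnalyticAt ℝ (fun t : ℝ => (aeval (Complex.exp ((t : ℂ) * Complex.I)) p : ℂ)) t :=
    AnalyticAt.fun_comp (g := fun z : ℂ => (aeval z p : ℂ))
      (f := fun t : ℝ => Complex.exp ((t : ℂ) * Complex.I)) h3.restrictScalars h2
  exact (Complex.reCLM.analyticAt _).fun_comp h4

/-- constant on an interval implies constant -/
theorem x_const (p : ℝ[X]) {r s a : ℝ} (hrs : r < s)
    (h : ∀ t ∈ Set.Icc r s, (aeval (Complex.exp ((t : ℂ) * Complex.I)) p : ℂ).re = a) :
    ∀ t : ℝ, (aeval (Complex.exp ((t : ℂ) * Complex.I)) p : ℂ).re = a := by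
  have hm : (r + s) / 2 ∈ Set.Ioo r s := ⟨by linarith, by linarith⟩
  have := (x_analytic p).eqOn_of_preconnected_of_eventuallyEq
    (g := fun _ => a) analyticOnNhd_const isPreconnected_univ (Set.mem_univ ((r + s) / 2))
    (by
      filter_upwards [Ioo_mem_nhds hm.1 hm.2] with t ht
      exact h t ⟨ht.1.le, ht.2.le⟩)
  exact fun t => this (Set.mem_univ t)

theorem t_VC (hC : S_CNT) : S_VC := by
  intro p _ hIm hQc hInj w₁ w₂ w₃ e12 e23 h1 h12 h23 m1 m3
  have hpi := Real.pi_pos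
  have hgc := g_cont p
  set g : ℝ → ℂ := fun t => (aeval (Complex.exp ((t : ℂ) * Complex.I)) p : ℂ) with hg
  have hxc : Continuous fun t => (g t).re := Complex.continuous_re.comp hgc
  have hoff : ∀ w ∈ (fun z : ℂ => (aeval z p : ℂ)) '' Metric.ball (0 : ℂ) 1, ∀ t, g t ≠ w := by
    rintro w ⟨z, hz, hzw⟩ t ht
    exact off p hInj z hz t (hzw.trans ht.symm)
  set a := w₂.re with ha
  have h2 : 0 < w₂.im := by linarith
  have h3 : 0 < w₃.im := by linarith
  obtain ⟨β₁, B1, B2, B3, B4, B5, B6, B7, B8, -⟩ := data hC p hIm w₁ h1 (hoff w₁ m1)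
  obtain ⟨β₃, D1, D2, D3, D4, D5, D6, D7, D8, -⟩ := data hC p hIm w₃ h3 (hoff w₃ m3)
  have B8 := B8 m1
  have D8 := D8 m3
  rw [e12] at B2 B3
  rw [← e23] at D2 D3
  -- the interval where the real part is at most `a`
  set I : Set ℝ := {t | t ∈ Set.Icc 0 Real.pi ∧ (g t).re ≤ a} with hI
  have hIc : IsCompact I := isCompact_Icc.inter_right (isClosed_le hxc continuous_const)
  have hIne : I.Nonempty := by
    by_contra hne
    rw [Set.not_nonempty_iff_eq_empty] at hne
    refine fwd0 B1 (fun t ht => B3 t ?_) B7 B8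
    by_contra hc
    have : t ∈ I := ⟨ht, (not_le.1 hc).le⟩
    rw [hne] at this
    exact this
  set t1 := sInf I with ht1
  set t2 := sSup I with ht2
  have k1 : t1 ∈ I := hIc.sInf_mem hIne
  have k2 : t2 ∈ I := hIc.sSup_mem hIne
  have h01 : 0 ≤ t1 := k1.1.1
  have h2p : t2 ≤ Real.pi := k2.1.2
  have h12' : t1 ≤ t2 := csInf_le_csSup hIne hIc.bddBelow hIc.bddAbove
  have X1 : 0 < t1 → ∀ t ∈ Set.Icc 0 t1, a ≤ (g t).re := by
    intro hp t ht
    have hcl : IsClosed {t | a ≤ (g t).re} := isClosed_le continuous_const hxc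
    have hsub : Set.Ico 0 t1 ⊆ {t | a ≤ (g t).re} := by
      intro t ht
      by_contra hc
      have : t ∈ I := ⟨⟨ht.1, by linarith [ht.2]⟩, (not_le.1 hc).le⟩
      exact absurd (csInf_le hIc.bddBelow this) (not_le.2 ht.2)
    have := hcl.closure_subset_iff.2 hsub
    rw [closure_Ico hp.ne] at this
    exact this ht
  have X2 : ∀ t ∈ Set.Icc t1 t2, (g t).re ≤ a := by
    intro t ht
    exact (hQc t1 t t2 h01 ht.1 ht.2 h2p).trans (max_le k1.2 k2.2)
  have X3 : t2 < Real.pi → ∀ t ∈ Set.Icc t2 Real.pi, a ≤ (g t).re := by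
    intro hp t ht
    have hcl : IsClosed {t | a ≤ (g t).re} := isClosed_le continuous_const hxc
    have hsub : Set.Ioc t2 Real.pi ⊆ {t | a ≤ (g t).re} := by
      intro t ht
      by_contra hc
      have : t ∈ I := ⟨⟨by linarith [ht.1], ht.2⟩, (not_le.1 hc).le⟩
      exact absurd (le_csSup hIc.bddAbove this) (not_le.2 ht.1)
    have := hcl.closure_subset_iff.2 hsub
    rw [closure_Ioc hp.ne] at this
    exact this ht
  obtain ⟨-, -, F1⟩ := fwd B1 h01 h12' h2p (fun hp t ht => B3 t (X1 hp t ht))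
    (fun t ht => B2 t (X2 t ht)) (fun hp t ht => B3 t (X3 hp t ht)) B6 B7 B8
  obtain ⟨F2, F3, -⟩ := fwd D1 h01 h12' h2p (fun hp t ht => D3 t (X1 hp t ht))
    (fun t ht => D2 t (X2 t ht)) (fun hp t ht => D3 t (X3 hp t ht)) D6 D7 D8
  have Y1 : w₃.im ≤ (g t1).im := by
    by_contra hc
    push Not at hc
    exact absurd (D4 t1 hc) (not_lt.2 F3.le)
  have Y2 : t2 < Real.pi → (g t2).im ≤ w₁.im := by
    intro hp
    by_contra hc
    push Not at hc
    exact F1 hp (B5 t2 hc)
  by_cases hcur : ∀ t, g t ≠ w₂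
  · obtain ⟨β, E1, E2, E3, E4, E5, E6, E7, -, E9⟩ := data hC p hIm w₂ h2 hcur
    apply E9
    exact bwd E1 F2 h12' h2p (fun t ht => E3 t (X1 F2 t ht)) (fun t ht => E2 t (X2 t ht))
      (fun hp t ht => E3 t (X3 hp t ht)) E6 E7 (E5 t1 (lt_of_lt_of_le h23 Y1))
      (fun hp => E4 t2 (lt_of_le_of_lt (Y2 hp) h12))
  · -- a point of the curve: impossible
    exfalso
    push Not at hcur
    obtain ⟨t₀, ht₀⟩ := hcur
    -- move to the interval [-pi, pi]
    obtain ⟨t, ht, hgt⟩ : ∃ t ∈ Set.Icc (-Real.pi) Real.pi, g t = w₂ := by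
      refine ⟨Complex.arg (Complex.exp ((t₀ : ℂ) * Complex.I)),
        ⟨(Complex.neg_pi_lt_arg _).le, Complex.arg_le_pi _⟩, ?_⟩
      have := Complex.norm_mul_exp_arg_mul_I (Complex.exp ((t₀ : ℂ) * Complex.I))
      rw [Complex.norm_exp_ofReal_mul_I, Complex.ofReal_one, one_mul] at this
      rw [← ht₀]
      simp only [hg]
      rw [this]
    have ht0 : 0 < t := by
      by_contra hc
      push Not at hc
      have h4 := hIm (-t) ⟨by linarith, by linarith [ht.1]⟩
      have h5 := g_im_neg p (-t)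
      rw [neg_neg] at h5
      have h6 : (g t).im = -(aeval (Complex.exp (((-t : ℝ) : ℂ) * Complex.I)) p : ℂ).im := h5
      rw [hgt] at h6
      linarith
    have hxt : (g t).re = a := by rw [hgt]
    have htI : t ∈ I := ⟨⟨ht0.le, ht.2⟩, hxt.le⟩
    have i1 : t1 ≤ t := csInf_le hIc.bddBelow htI
    have i2 : t ≤ t2 := le_csSup hIc.bddAbove htI
    have i1' : t1 < t := by
      refine lt_of_le_of_ne i1 fun e => ?_
      rw [e, hgt] at Y1
      linarith
    have i2' : t < t2 := by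
      refine lt_of_le_of_ne i2 fun e => ?_
      rcases h2p.eq_or_lt with e' | e'
      · -- t = pi
        have h5 := g_im_neg p Real.pi
        have h7 : Complex.exp (((-Real.pi : ℝ) : ℂ) * Complex.I)
            = Complex.exp (((Real.pi : ℝ) : ℂ) * Complex.I) := by
          rw [Complex.ofReal_neg, neg_mul, Complex.exp_neg, Complex.exp_pi_mul_I]
          norm_num
        rw [h7] at h5
        have h6 : (g Real.pi).im = -(g Real.pi).im := h5
        rw [← e', ← e, hgt] at h6
        linarith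
      · have := Y2 e'
        rw [← e, hgt] at this
        linarith
    -- the real part is constant on one side
    have hne : ∀ r s, r < s → ∃ t ∈ Set.Icc r s, (g t).re ≠ a := by
      intro r s hrs
      by_contra hc
      push Not at hc
      have h8 := x_const p hrs hc
      have h9 : (0 : ℝ) ∈ I := ⟨⟨le_rfl, hpi.le⟩, (h8 0).le⟩
      have := csInf_le hIc.bddBelow h9
      linarith
    obtain ⟨r, hr, hr'⟩ := hne t1 t i1'
    obtain ⟨s, hs, hs'⟩ := hne t t2 i2'
    have r1 : (g r).re < a := lt_of_le_of_ne (X2 r ⟨hr.1, hr.2.trans i2⟩) hr'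
    have s1 : (g s).re < a := lt_of_le_of_ne (X2 s ⟨i1.trans hs.1, hs.2⟩) hs'
    have := hQc r t s (h01.trans hr.1) hr.2 hs.1 (hs.2.trans h2p)
    have h10 : (g t).re ≤ max (g r).re (g s).re := this
    rw [hxt] at h10
    exact absurd (max_lt r1 s1) (not_lt.2 h10)

end Pool.Agent.Y83.UF
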